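import Pool.Agent.H499R2.CL.Defs

/-! Project CL, task B: one stage with weights. -/

set_option autoImplicit false

namespace Pool.Agent.H499R2.ND

open Pool.Agent.H320R2.PD Finset Filter Topology

open Pool.Agent.H319R2.Lln (mu)

theorem stageW {d : ℤ} (hd : Odd d) (hd3 : IsCoprime d 3) {S : Set ℤ} (S' : ℕ → Set ℤ) {A : ℝ}
    (hA : 0 < A) {k m m' Tl Tm : ℕ} (hk : 1 ≤ k) (hm' : m' ≤ k) (hTm : Tm ≤ 41 * k / 20) {ρ : ℕ → ℝ}
    (hpath : ∀ w ∈ GW (3 * k) k Tl Tm, ∀ M x : ℤ, Odd M → Odd x → A ≤ (M : ℝ) →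
      (M : ℝ) < 2 * A → M ∈ S → Vw d w M x → x ∈ S' w.sum)
    (h : ∀ T : ℕ, Tl ≤ T → T ≤ Tm → PB (S' T) (A * 3 ^ k / 2 ^ T) m' (ρ T)) :
    PB S A m ((∑ w ∈ GW (3 * k) k Tl Tm, wwt w * ρ w.sum)
      + Err d A k m m' + (1 - ∑ w ∈ GW (3 * k) k Tl Tm, wwt w)) := by
  intro u v hu
  obtain ⟨c, hc⟩ := cls_unit S A (2 * A) m hu v
  rw [hc]
  have hTm2 : Tm ≤ k * (3 * k) := by
    refine hTm.trans ?_
    nlinarith [Nat.div_mul_le_self (41 * k) 20]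
  have h1 := starG hd hd3 S' hA.le (3 * k) k m m' Tl Tm hpath hk hm' hTm2 c
  set G := GW (3 * k) k Tl Tm with hG
  have h2 : ∑ w ∈ G, ((cls (S' w.sum) (A * 3 ^ k / 2 ^ w.sum) (2 * (A * 3 ^ k / 2 ^ w.sum)) m'
            (2 ^ w.sum) (d * Wo w)).card : ℝ)
      ≤ ∑ w ∈ G, wwt w * ρ w.sum * (A * 3 ^ k / (2 * 3 ^ m')) := by
    apply sum_le_sum
    intro w hw
    have hw2 := (mem_filter.1 (show w ∈ GW (3 * k) k Tl Tm from hw)).2
    have h3 := h w.sum hw2.1 hw2.2 (2 ^ w.sum) (d * Wo w) (cop_two_pow _)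
    refine h3.trans (le_of_eq ?_)
    unfold wwt
    rw [one_div, inv_pow]
    field_simp
  have hmass1 : ∑ w ∈ G, wwt w ≤ 1 := by
    refine le_trans ?_ (sum_wwt_le (3 * k) k)
    rw [hG]; unfold GW
    apply sum_le_sum_of_subset_of_nonneg (filter_subset _ _)
    intro w _ _; unfold wwt; positivity
  rw [← sum_mul] at h2
  set R := ∑ w ∈ G, wwt w * ρ w.sum with hR
  have h4 : (∑ w ∈ G, ((cls (S' w.sum) (A * 3 ^ k / 2 ^ w.sum) (2 * (A * 3 ^ k / 2 ^ w.sum)) m'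
            (2 ^ w.sum) (d * Wo w)).card : ℝ)) / 3 ^ (k + m - m') ≤ R * (A / (2 * 3 ^ m)) := by
    rw [div_le_iff₀ (by positivity)]
    refine h2.trans (le_of_eq ?_)
    have h6 : (3 : ℝ) ^ (k + m - m') * 3 ^ m' = 3 ^ k * 3 ^ m := by
      rw [← pow_add, ← pow_add]; congr 1; omega
    have h7 : (3 : ℝ) ^ k = 3 ^ (k + m - m') * 3 ^ m' / 3 ^ m := by
      rw [h6]; field_simp
    rw [h7]
    field_simp
  refine h1.trans ?_
  -- compare the errors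
  unfold Err
  set G0 := GW (3 * k) k ((39 * k + 19) / 20) (41 * k / 20) with hG0
  set δ := ∑ T ∈ range (k * (3 * k) + 1), dev (FWT (3 * k) k T) wwt (fun w => (Wo w : ℤ)) (k + m) m' with hδ
  have hδnn : 0 ≤ δ := sum_nonneg fun _ _ => sum_nonneg fun _ _ => abs_nonneg _
  have hX : (2 : ℝ) ^ Tm ≤ 2 ^ (41 * k / 20) := pow_le_pow_right₀ (by norm_num) hTm
  have hμ0 : ∑ w ∈ G0, wwt w ≤ 1 := by
    refine le_trans ?_ (sum_wwt_le (3 * k) k)
    rw [hG0]; unfold GW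
    apply sum_le_sum_of_subset_of_nonneg (filter_subset _ _)
    intro w _ _; unfold wwt; positivity
  set X := (2 : ℝ) ^ (41 * k / 20) with hXdef
  set X' := (2 : ℝ) ^ Tm with hX'def
  have hX'0 : 0 < X' := by positivity
  set Y := A / (2 * 3 ^ m) with hY
  have hY0 : 0 < Y := by positivity
  set Z := 2 * 3 ^ m / A with hZ
  have hfac : Y * Z = 1 := by rw [hY, hZ]; field_simp
  set μ0 := ∑ w ∈ G0, wwt w with hμ0def
  set μ := ∑ w ∈ G, wwt w with hμdef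
  have e1 : (R + ((1 + X * Z) * δ + (1 - μ0) + (1 + (|(d : ℝ)| + 2) * X) * Z) + (1 - μ)) * Y
      = R * Y + (Y + X * (Y * Z)) * δ + Y * (1 - μ0) + (1 + (|(d : ℝ)| + 2) * X) * (Y * Z) + Y * (1 - μ) := by ring
  rw [e1, hfac]
  have g1 : (Y + X') * δ ≤ (Y + X * 1) * δ := mul_le_mul_of_nonneg_right (by linarith) hδnn
  have g2 : 0 ≤ Y * (1 - μ0) := mul_nonneg hY0.le (by linarith)
  have g3 : (|(d : ℝ)| + 2) * X' ≤ (|(d : ℝ)| + 2) * X := mul_le_mul_of_nonneg_left hX (by positivity)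
  linarith

end Pool.Agent.H499R2.ND
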