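import Pool.Agent.H499R2.CL.Defs

/-! Project CL, target D: mass of a window of sizes of half width `a ≤ k/20`. -/

set_option autoImplicit false

namespace Pool.Agent.H499R2.ND

open Pool.Agent.H320R2.PD Finset Filter Topology

open Pool.Agent.H319R2.Lln (mu)

theorem mass_win {k : ℕ} (hk : 1 ≤ k) {a : ℝ} (ha : 0 < a) (hak : a ≤ k / 20) :
    ∃ Tl Tm : ℕ, Tm ≤ 41 * k / 20 ∧ (∀ T : ℕ, (Tl ≤ T ∧ T ≤ Tm) ↔ |(T : ℝ) - 2 * k| ≤ a) ∧
      1 - ∑ w ∈ GW (3 * k) k Tl Tm, wwt w ≤ 3 * Real.exp (-(a ^ 2 / (32 * k))) := by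
  have hkR : (1 : ℝ) ≤ k := by exact_mod_cast hk
  have hkpos : (0 : ℝ) < k := by linarith
  have hwin : ∀ T : ℕ, (⌈(2 : ℝ) * k - a⌉₊ ≤ T ∧ T ≤ ⌊(2 : ℝ) * k + a⌋₊) ↔
      |(T : ℝ) - 2 * k| ≤ a := by
    intro T
    rw [Nat.ceil_le, Nat.le_floor_iff (by positivity), abs_le]
    constructor
    · rintro ⟨h1, h2⟩; constructor <;> linarith
    · rintro ⟨h1, h2⟩; constructor <;> linarith
  refine ⟨⌈(2 : ℝ) * k - a⌉₊, ⌊(2 : ℝ) * k + a⌋₊, ?_, hwin, ?_⟩
  · rw [Nat.le_div_iff_mul_le (by norm_num)]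
    have h1 : ((⌊(2 : ℝ) * k + a⌋₊ : ℕ) : ℝ) ≤ 2 * k + a := Nat.floor_le (by positivity)
    have h2 : ((⌊(2 : ℝ) * k + a⌋₊ * 20 : ℕ) : ℝ) ≤ ((41 * k : ℕ) : ℝ) := by
      push_cast
      nlinarith
    exact_mod_cast h2
  · set Tl := ⌈(2 : ℝ) * k - a⌉₊ with hTl
    set Tm := ⌊(2 : ℝ) * k + a⌋₊ with hTm
    set η : ℝ := a / k with hη
    have hη0 : 0 < η := by positivity
    have hηk : η * k = a := by rw [hη]; field_simp
    have hη1 : η ≤ 1 / 20 := by
      rw [hη, div_le_iff₀ hkpos]; linarith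
    have hexp : a ^ 2 / (32 * k) = η ^ 2 * k / 32 := by
      rw [hη]; field_simp
    rw [hexp]
    set G := GW (3 * k) k Tl Tm with hG
    have h1 : ∑ w ∈ FW (3 * k) k, wwt w ≤ ∑ w ∈ G, wwt w
        + ∑ w ∈ (FW (3 * k) k).filter (fun w => η * k ≤ |(w.sum : ℝ) - 2 * k|), wwt w := by
      classical
      rw [← sum_union_inter]
      have hsub : FW (3 * k) k ⊆ G
          ∪ ((FW (3 * k) k).filter fun w => η * k ≤ |(w.sum : ℝ) - 2 * k|) := by
        intro w hw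
        rw [mem_union, mem_filter]
        by_cases h : |(w.sum : ℝ) - 2 * k| ≤ a
        · refine Or.inl ?_
          rw [hG]
          unfold GW
          rw [mem_filter]
          exact ⟨hw, (hwin w.sum).2 h⟩
        · refine Or.inr ⟨hw, ?_⟩
          rw [hηk]
          exact (not_le.1 h).le
      have h2 := sum_le_sum_of_subset_of_nonneg hsub (f := wwt)
        (fun w _ _ => by unfold wwt; positivity)
      have h3 : 0 ≤ ∑ x ∈ G
          ∩ ((FW (3 * k) k).filter fun w => η * k ≤ |(w.sum : ℝ) - 2 * k|), wwt x :=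
        sum_nonneg fun w _ => by unfold wwt; positivity
      linarith
    have h2 := tail (3 * k) k (η := η) hη0 (by linarith)
    have h3 : 1 - (k : ℝ) * (1 / 2) ^ (3 * k) ≤ ∑ w ∈ FW (3 * k) k, wwt w := by
      rw [sum_wwt]
      have := one_add_mul_le_pow (a := -(1 / 2 : ℝ) ^ (3 * k)) (by
        have : (1 / 2 : ℝ) ^ (3 * k) ≤ 1 := pow_le_one₀ (by norm_num) (by norm_num)
        linarith) k
      rw [← sub_eq_add_neg] at this
      linarith
    have h4 : (k : ℝ) * (1 / 2) ^ (3 * k) ≤ Real.exp (-(η ^ 2 * k / 32)) := by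
      have e1 : (k : ℝ) ≤ 2 ^ k := by exact_mod_cast Nat.lt_two_pow_self.le
      have e2 : (1 / 2 : ℝ) ^ (3 * k) = (1 / 2) ^ k * ((1 / 4) ^ k) := by
        rw [← mul_pow, pow_mul]; norm_num
      have e3 : (k : ℝ) * (1 / 2) ^ (3 * k) ≤ (1 / 4) ^ k := by
        rw [e2, ← mul_assoc]
        have : (k : ℝ) * (1 / 2) ^ k ≤ 1 := by
          rw [one_div, inv_pow, ← div_eq_mul_inv, div_le_one (by positivity)]; exact e1
        calc (k : ℝ) * (1 / 2) ^ k * (1 / 4) ^ k ≤ 1 * (1 / 4) ^ k :=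
              mul_le_mul_of_nonneg_right this (by positivity)
          _ = _ := one_mul _
      refine e3.trans ?_
      rw [show (-(η ^ 2 * k / 32)) = k * (-(η ^ 2 / 32)) by ring, Real.exp_nat_mul]
      apply pow_le_pow_left₀ (by norm_num)
      have h5 := Real.add_one_le_exp (-(η ^ 2 / 32))
      have h6 : η ^ 2 ≤ 1 := by nlinarith
      linarith
    linarith

end Pool.Agent.H499R2.ND
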