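import Pool.Agent.H499R2.CL.Defs

/-! Project CL: monotonicity of the predicate `PB`. -/

set_option autoImplicit false

namespace Pool.Agent.H499R2.ND

open Pool.Agent.H320R2.PD Finset Filter Topology

theorem PB_mono {S : Set ℤ} {A : ℝ} (hA : 0 < A) {m : ℕ} {ρ ρ' : ℝ} (h : ρ ≤ ρ') (hP : PB S A m ρ) :
    PB S A m ρ' := by
  intro u v hu
  refine (hP u v hu).trans ?_
  exact mul_le_mul_of_nonneg_right h (by positivity)

theorem PB_sub {S S' : Set ℤ} {A : ℝ} {m : ℕ} {ρ : ℝ}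
    (h : ∀ x : ℤ, A ≤ (x : ℝ) → (x : ℝ) < 2 * A → x ∈ S → x ∈ S') (hP : PB S' A m ρ) : PB S A m ρ := by
  intro u v hu
  refine le_trans ?_ (hP u v hu)
  have : cls S A (2 * A) m u v ⊆ cls S' A (2 * A) m u v := by
    intro x hx
    rw [mem_cls] at hx ⊢
    exact ⟨hx.1, hx.2.1, h x hx.1.1 hx.1.2 hx.2.2.1, hx.2.2.2⟩
  exact_mod_cast card_le_card this

theorem PB_union {S S' : Set ℤ} {A : ℝ} {m : ℕ} {ρ ρ' : ℝ} (h : PB S A m ρ) (h' : PB S' A m ρ') :
    PB (S ∪ S') A m (ρ + ρ') := by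
  classical
  intro u v hu
  have h1 := h u v hu
  have h2 := h' u v hu
  have hsub : cls (S ∪ S') A (2 * A) m u v ⊆ cls S A (2 * A) m u v ∪ cls S' A (2 * A) m u v := by
    intro x hx
    rw [mem_cls] at hx
    rw [mem_union, mem_cls, mem_cls]
    rcases hx.2.2.1 with h | h
    · exact Or.inl ⟨hx.1, hx.2.1, h, hx.2.2.2⟩
    · exact Or.inr ⟨hx.1, hx.2.1, h, hx.2.2.2⟩
  have h3 : ((cls (S ∪ S') A (2 * A) m u v).card : ℝ)
      ≤ (cls S A (2 * A) m u v).card + (cls S' A (2 * A) m u v).card := by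
    exact_mod_cast (card_le_card hsub).trans (card_union_le _ _)
  rw [add_mul]
  linarith

end Pool.Agent.H499R2.ND
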