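import Pool.Agent.H499R2.CL.Defs
import Mathlib.Probability.CentralLimitTheorem
import Mathlib.Probability.Distributions.Geometric
import Mathlib.Probability.Independence.InfinitePi

/-! Task J: central limit theorem for the size of a random word. -/

set_option autoImplicit false

namespace Pool.Agent.H499R2.ND

open Pool.Agent.H320R2.PD Finset Filter Topology

open Pool.Agent.H319R2.Lln (mu)

open MeasureTheory ProbabilityTheory

namespace TJ

/-- the success probability -/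
noncomputable def ph : unitInterval := ⟨1 / 2, by norm_num, by norm_num⟩

theorem ph_ne : ph ≠ 0 := by
  intro h
  have := congrArg Subtype.val h
  norm_num [ph] at this

/-- law of one letter (minus one) -/
noncomputable def geo : Measure ℕ := geometricMeasure ph

instance : IsProbabilityMeasure geo := by unfold geo; infer_instance

/-- law of the sequence of letters -/
noncomputable def PP : Measure (ℕ → ℕ) := Measure.infinitePi (fun _ : ℕ => geo)

instance : IsProbabilityMeasure PP := by unfold PP; infer_instance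

theorem geo_real (n : ℕ) : geo.real {n} = (1 / 2 : ℝ) ^ (n + 1) := by
  unfold geo
  rw [geometricMeasure_real_singleton ph_ne]
  simp only [ph]
  rw [pow_succ]
  norm_num

theorem hs0 : HasSum (fun n : ℕ => ((n:ℝ) + 1) * (1 / 2 : ℝ) ^ n) 4 := by
  have h := hasSum_choose_mul_geometric_of_norm_lt_one (𝕜 := ℝ) 1 (r := 1 / 2) (by norm_num)
  have e : (fun n : ℕ => ((n:ℝ) + 1) * (1 / 2 : ℝ) ^ n) =
      fun n : ℕ => (((n + 1).choose 1 : ℕ) : ℝ) * (1 / 2 : ℝ) ^ n := by
    funext n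
    rw [Nat.choose_one_right]
    push_cast
    ring
  have h4 : (1:ℝ) / (1 - 1 / 2) ^ (1 + 1) = 4 := by norm_num
  rw [h4] at h
  rw [e]
  exact h

theorem hs1 : HasSum (fun n : ℕ => ((n:ℝ) + 1) * (n + 2) / 2 * (1 / 2 : ℝ) ^ n) 8 := by
  have h := hasSum_choose_mul_geometric_of_norm_lt_one (𝕜 := ℝ) 2 (r := 1 / 2) (by norm_num)
  have e : (fun n : ℕ => ((n:ℝ) + 1) * (n + 2) / 2 * (1 / 2 : ℝ) ^ n) =
      fun n : ℕ => (((n + 2).choose 2 : ℕ) : ℝ) * (1 / 2 : ℝ) ^ n := by
    funext n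
    rw [Nat.cast_choose_two]
    push_cast
    ring
  have h4 : (1:ℝ) / (1 - 1 / 2) ^ (2 + 1) = 8 := by norm_num
  rw [h4] at h
  rw [e]
  exact h

theorem hs2 : HasSum (fun n : ℕ => ((n:ℝ) + 1) ^ 2 * (1 / 2 : ℝ) ^ n) 12 := by
  have h := (hs1.mul_left 2).sub hs0
  have e : (fun n : ℕ => ((n:ℝ) + 1) ^ 2 * (1 / 2 : ℝ) ^ n) =
      fun n : ℕ => 2 * (((n:ℝ) + 1) * (n + 2) / 2 * (1 / 2 : ℝ) ^ n) -
        ((n:ℝ) + 1) * (1 / 2 : ℝ) ^ n := by
    funext n
    ring
  have h4 : (2:ℝ) * 8 - 4 = 12 := by norm_num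
  rw [h4] at h
  rw [e]
  exact h

theorem hsg : HasSum (fun n : ℕ => (1 / 2 : ℝ) ^ n) 2 := hasSum_geometric_two

/-- the normalised letter -/
noncomputable def nl (n : ℕ) : ℝ := ((n:ℝ) - 1) / Real.sqrt 2

theorem hph : (ph:ℝ) = 1 / 2 := rfl

theorem hph' : 1 - (ph:ℝ) = 1 / 2 := by rw [hph]; norm_num

theorem nl_sq_sum : HasSum (fun n : ℕ => (1 - (ph:ℝ)) ^ n * ph * (nl n) ^ 2) 1 := by
  have h := ((hs2.sub (hs0.mul_left 4)).add (hsg.mul_left 4)).mul_left (1 / 4)
  have e : (fun n : ℕ => (1 - (ph:ℝ)) ^ n * ph * (nl n) ^ 2) =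
      fun n : ℕ => (1 / 4 : ℝ) * (((n:ℝ) + 1) ^ 2 * (1 / 2 : ℝ) ^ n -
        4 * (((n:ℝ) + 1) * (1 / 2 : ℝ) ^ n) + 4 * (1 / 2 : ℝ) ^ n) := by
    funext n
    rw [hph', hph]
    unfold nl
    generalize (1 / 2 : ℝ) ^ n = z
    rw [div_pow, Real.sq_sqrt (by norm_num : (0:ℝ) ≤ 2)]
    ring
  have h4 : (1:ℝ) / 4 * (12 - 4 * 4 + 4 * 2) = 1 := by norm_num
  rw [h4] at h
  rw [e]
  exact h

theorem nl_sum : HasSum (fun n : ℕ => (1 - (ph:ℝ)) ^ n * ph * nl n) 0 := by
  have h := (hs0.sub (hsg.mul_left 2)).mul_left (1 / 2 / Real.sqrt 2)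
  have e : (fun n : ℕ => (1 - (ph:ℝ)) ^ n * ph * nl n) =
      fun n : ℕ => (1 / 2 / Real.sqrt 2 : ℝ) * (((n:ℝ) + 1) * (1 / 2 : ℝ) ^ n -
        2 * (1 / 2 : ℝ) ^ n) := by
    funext n
    rw [hph', hph]
    unfold nl
    generalize (1 / 2 : ℝ) ^ n = z
    ring
  have h4 : (1:ℝ) / 2 / Real.sqrt 2 * (4 - 2 * 2) = 0 := by norm_num
  rw [h4] at h
  rw [e]
  exact h

theorem int_nl : ∫ n, nl n ∂geo = 0 := by
  unfold geo
  rw [integral_geometricMeasure ph_ne]
  simpa using nl_sum.tsum_eq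

theorem int_nl_sq : ∫ n, (nl n) ^ 2 ∂geo = 1 := by
  unfold geo
  rw [integral_geometricMeasure ph_ne]
  simpa using nl_sq_sum.tsum_eq

/-- the normalised letters -/
noncomputable def XX (i : ℕ) (ω : ℕ → ℕ) : ℝ := nl (ω i)

theorem meas_nl : Measurable nl := measurable_from_top

theorem indep : iIndepFun XX PP := by
  unfold XX PP
  exact iIndepFun_infinitePi (X := fun _ n => nl n) (fun _ => meas_nl)

theorem map_eval (i : ℕ) : PP.map (fun ω => ω i) = geo := by
  unfold PP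
  exact Measure.infinitePi_map_eval (μ := fun _ : ℕ => geo) i

theorem meas_XX (i : ℕ) : Measurable (XX i) := meas_nl.comp (measurable_pi_apply i)

theorem ident (i : ℕ) : IdentDistrib (XX i) (XX 0) PP PP := by
  refine ⟨(meas_XX i).aemeasurable, (meas_XX 0).aemeasurable, ?_⟩
  have e : ∀ i, PP.map (XX i) = geo.map nl := by
    intro i
    rw [← map_eval i, Measure.map_map meas_nl (measurable_pi_apply i)]
    rfl
  rw [e, e]

theorem mean0 : ∫ ω, XX 0 ω ∂PP = 0 := by
  rw [← int_nl, ← map_eval 0, integral_map (measurable_pi_apply 0).aemeasurable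
    meas_nl.aestronglyMeasurable]
  rfl

theorem mean1 : ∫ ω, (XX 0 ^ 2) ω ∂PP = 1 := by
  rw [← int_nl_sq, ← map_eval 0, integral_map (measurable_pi_apply 0).aemeasurable
    (meas_nl.pow_const 2).aestronglyMeasurable]
  rfl

/-- the normalised sum -/
noncomputable def ZZ (K : ℕ) (ω : ℕ → ℕ) : ℝ := (Real.sqrt K)⁻¹ * ∑ k ∈ range K, XX k ω

theorem clt : TendstoInDistribution ZZ atTop (id : ℝ → ℝ) (fun _ => PP) (gaussianReal 0 1) :=
  tendstoInDistribution_inv_sqrt_mul_sum (X := XX) (P := PP) (Y := (id : ℝ → ℝ))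
    (P' := gaussianReal 0 1) HasLaw.id mean0 mean1 indep ident

theorem meas_ZZ (K : ℕ) : Measurable (ZZ K) := by
  unfold ZZ
  exact (Finset.measurable_sum _ (fun k _ => meas_XX k)).const_mul _

theorem no_atom (x : ℝ) : (gaussianReal 0 1) {x} = 0 := by
  have : NullSingletonClass (gaussianReal 0 1) :=
    nullSingletonClass_gaussianReal (μ := 0) (v := 1) one_ne_zero
  exact measure_singleton x

theorem lim_set {A : Set ℝ} (hA : MeasurableSet A) (h : (gaussianReal 0 1) (frontier A) = 0) :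
    Tendsto (fun K => PP.real (ZZ K ⁻¹' A)) atTop (𝓝 ((gaussianReal 0 1).real A)) := by
  have h1 : Tendsto (fun K => (PP.map (ZZ K)) A) atTop (𝓝 (((gaussianReal 0 1).map id) A)) :=
    ProbabilityMeasure.tendsto_measure_of_null_frontier_of_tendsto' clt.tendsto (E := A)
      (by
        change ((gaussianReal 0 1).map id) (frontier A) = 0
        rwa [Measure.map_id])
  rw [Measure.map_id] at h1
  have h2 := (ENNReal.tendsto_toReal (measure_ne_top (gaussianReal 0 1) A)).comp h1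
  refine h2.congr ?_
  intro K
  simp only [Function.comp_apply]
  rw [Measure.map_apply (meas_ZZ K) hA]
  rfl

/-! ### words -/

/-- the cylinder of a word -/
def cyl (K : ℕ) (w : List ℕ) : Set (ℕ → ℕ) := Set.pi (↑(range K)) (fun i => {w.getD i 0 - 1})

theorem sum_getD (w : List ℕ) : ∑ i ∈ range w.length, w.getD i 0 = w.sum := by
  induction w with
  | nil => simp
  | cons a w ih =>
    rw [List.length_cons, Finset.sum_range_succ', List.sum_cons]
    simp only [List.getD_cons_succ, List.getD_cons_zero]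
    rw [ih]
    ring

theorem getD_pos {cap K : ℕ} {w : List ℕ} (hw : w ∈ FW cap K) {i : ℕ} (hi : i < K) :
    1 ≤ w.getD i 0 := by
  rw [mem_FW] at hw
  have hi' : i < w.length := by omega
  rw [List.getD_eq_getElem _ _ hi']
  exact (hw.2 _ (List.getElem_mem hi')).1

theorem cyl_meas {cap K : ℕ} {w : List ℕ} (hw : w ∈ FW cap K) : PP.real (cyl K w) = wwt w := by
  unfold cyl PP
  rw [measureReal_def, Measure.infinitePi_pi (μ := fun _ : ℕ => geo) (s := range K)
    (t := fun i => ({w.getD i 0 - 1} : Set ℕ)) (fun _ _ => measurableSet_singleton _),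
    ENNReal.toReal_prod]
  have h1 : ∀ i ∈ range K, (geo {w.getD i 0 - 1}).toReal = (1 / 2 : ℝ) ^ (w.getD i 0) := by
    intro i hi
    rw [← measureReal_def, geo_real]
    congr 1
    have := getD_pos hw (mem_range.1 hi)
    omega
  rw [Finset.prod_congr rfl h1, Finset.prod_pow_eq_pow_sum]
  unfold wwt
  congr 1
  rw [← sum_getD w, (mem_FW.1 hw).1]

theorem cyl_disj {cap K : ℕ} {w w' : List ℕ} (hw : w ∈ FW cap K) (hw' : w' ∈ FW cap K)
    (h : w ≠ w') : Disjoint (cyl K w) (cyl K w') := by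
  rw [Set.disjoint_left]
  intro ω h1 h2
  apply h
  have l1 := (mem_FW.1 hw).1
  have l2 := (mem_FW.1 hw').1
  apply List.ext_getElem (by rw [l1, l2])
  intro i hi hi'
  have hiK : i < K := by omega
  have e1 : ω i = w.getD i 0 - 1 := h1 i (by simpa using hiK)
  have e2 : ω i = w'.getD i 0 - 1 := h2 i (by simpa using hiK)
  have p1 := getD_pos hw hiK
  have p2 := getD_pos hw' hiK
  rw [List.getD_eq_getElem _ _ hi] at e1 p1
  rw [List.getD_eq_getElem _ _ hi'] at e2 p2
  omega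

theorem cyl_ZZ {cap K : ℕ} (hK : 1 ≤ K) {w : List ℕ} (hw : w ∈ FW cap K) {ω : ℕ → ℕ}
    (h : ω ∈ cyl K w) : ZZ K ω = ((w.sum : ℝ) - 2 * K) / Real.sqrt (2 * K) := by
  have h1 : ∀ k ∈ range K, XX k ω = ((w.getD k 0 : ℝ) - 2) / Real.sqrt 2 := by
    intro k hk
    have e1 : ω k = w.getD k 0 - 1 := h k (by simpa using hk)
    have p1 := getD_pos hw (mem_range.1 hk)
    unfold XX nl
    rw [e1, Nat.cast_sub p1]
    push_cast
    ring
  unfold ZZ
  rw [Finset.sum_congr rfl h1, ← Finset.sum_div, Finset.sum_sub_distrib, ← Nat.cast_sum]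
  have h2 : ∑ i ∈ range K, w.getD i 0 = w.sum := by
    rw [← sum_getD w, (mem_FW.1 hw).1]
  rw [h2, Finset.sum_const, card_range, nsmul_eq_mul, Real.sqrt_mul (by norm_num)]
  have h3 : 0 < Real.sqrt (K:ℝ) := Real.sqrt_pos.2 (by exact_mod_cast hK)
  have h4 : 0 < Real.sqrt (2:ℝ) := Real.sqrt_pos.2 (by norm_num)
  field_simp

theorem word_le {cap K : ℕ} (hK : 1 ≤ K) (p : ℝ → Prop) [DecidablePred p] (A : Set ℝ)
    (hA : ∀ t : ℝ, p t → (t - 2 * K) / Real.sqrt (2 * K) ∈ A) :
    ∑ w ∈ (FW cap K).filter (fun w => p (w.sum : ℝ)), wwt w ≤ PP.real (ZZ K ⁻¹' A) := by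
  have h1 : ∑ w ∈ (FW cap K).filter (fun w => p (w.sum : ℝ)), wwt w =
      PP.real (⋃ w ∈ (FW cap K).filter (fun w => p (w.sum : ℝ)), cyl K w) := by
    rw [measureReal_biUnion_finset]
    · apply Finset.sum_congr rfl
      intro w hw
      rw [cyl_meas (mem_filter.1 hw).1]
    · intro w hw w' hw' hne
      exact cyl_disj (mem_filter.1 hw).1 (mem_filter.1 hw').1 hne
    · intro w _
      unfold cyl
      exact MeasurableSet.pi (Set.to_countable _) (fun _ _ => measurableSet_singleton _)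
  rw [h1]
  apply measureReal_mono _ (measure_ne_top _ _)
  intro ω hω
  simp only [Set.mem_iUnion] at hω
  obtain ⟨w, hw, hω⟩ := hω
  rw [mem_filter] at hw
  rw [Set.mem_preimage, cyl_ZZ hK hw.1 hω]
  exact hA _ hw.2

end TJ

theorem word_clt (x : ℝ) {ε : ℝ} (hε : 0 < ε) : ∃ K0 : ℕ, ∀ K : ℕ, K0 ≤ K → ∀ cap : ℕ,
    ∑ w ∈ (FW cap K).filter (fun w => (w.sum : ℝ) ≤ 2 * K + x * Real.sqrt (2 * K)), wwt w ≤ Phi x + ε ∧
    ∑ w ∈ (FW cap K).filter (fun w => 2 * K + x * Real.sqrt (2 * K) ≤ (w.sum : ℝ)), wwt w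
      ≤ 1 - Phi x + ε := by
  have h1 := TJ.lim_set (A := Set.Iic x) measurableSet_Iic (by
    rw [frontier_Iic]
    exact TJ.no_atom x)
  have h2 := TJ.lim_set (A := Set.Ici x) measurableSet_Ici (by
    rw [frontier_Ici]
    exact TJ.no_atom x)
  have h3 : (gaussianReal 0 1).real (Set.Ici x) = 1 - Phi x := by
    unfold Phi
    rw [← Set.compl_Iio, probReal_compl_eq_one_sub measurableSet_Iio]
    congr 1
    apply measureReal_congr
    exact Iio_ae_eq_Iic' (TJ.no_atom x)
  rw [h3] at h2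
  have e1 := (h1.eventually (gt_mem_nhds (show Phi x < Phi x + ε by linarith)))
  have e2 := (h2.eventually (gt_mem_nhds (show 1 - Phi x < 1 - Phi x + ε by linarith)))
  obtain ⟨K0, hK0⟩ := Filter.eventually_atTop.1 (e1.and e2)
  refine ⟨max K0 1, ?_⟩
  intro K hK cap
  have hK1 : 1 ≤ K := le_trans (le_max_right _ _) hK
  have hs : 0 < Real.sqrt (2 * (K:ℝ)) := Real.sqrt_pos.2 (by
    have : (1:ℝ) ≤ K := by exact_mod_cast hK1
    linarith)
  have h4 := hK0 K (le_trans (le_max_left _ _) hK)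
  constructor
  · refine (TJ.word_le hK1 (fun t => t ≤ 2 * K + x * Real.sqrt (2 * K)) (Set.Iic x) ?_).trans
      h4.1.le
    intro t ht
    rw [Set.mem_Iic, div_le_iff₀ hs]
    linarith
  · refine (TJ.word_le hK1 (fun t => 2 * K + x * Real.sqrt (2 * K) ≤ t) (Set.Ici x) ?_).trans
      h4.2.le
    intro t ht
    rw [Set.mem_Ici, le_div_iff₀ hs]
    linarith

theorem Phi_mono : Monotone Phi := by
  intro x y h
  unfold Phi
  exact measureReal_mono (Set.Iic_subset_Iic.2 h)

theorem Phi_neg (x : ℝ) : Phi (-x) = 1 - Phi x := by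
  have h3 : (gaussianReal 0 1).real (Set.Ici x) = 1 - Phi x := by
    unfold Phi
    rw [← Set.compl_Iio, probReal_compl_eq_one_sub measurableSet_Iio]
    congr 1
    apply measureReal_congr
    exact Iio_ae_eq_Iic' (TJ.no_atom x)
  rw [← h3]
  unfold Phi
  have h4 : (gaussianReal 0 1).map (fun y => -y) = gaussianReal 0 1 := by
    rw [gaussianReal_map_neg]
    simp
  conv_lhs => rw [← h4]
  rw [measureReal_def, Measure.map_apply measurable_neg measurableSet_Iic, ← measureReal_def]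
  congr 1
  ext y
  simp

theorem Phi_continuous : Continuous Phi := by
  have h : Phi = fun x => cdf (gaussianReal 0 1) x := by
    funext x
    rw [cdf_eq_real]
    rfl
  rw [h]
  rw [continuous_iff_continuousAt]
  intro x
  have h1 : (cdf (gaussianReal 0 1)).measure {x} = 0 := by
    rw [measure_cdf]
    exact TJ.no_atom x
  rw [StieltjesFunction.measure_singleton, ENNReal.ofReal_eq_zero] at h1
  have hm : Monotone (cdf (gaussianReal 0 1)) := (cdf (gaussianReal 0 1)).mono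
  have h2 : Function.leftLim (cdf (gaussianReal 0 1)) x ≤ cdf (gaussianReal 0 1) x :=
    hm.leftLim_le le_rfl
  change ContinuousAt (cdf (gaussianReal 0 1)) x
  rw [hm.continuousAt_iff_leftLim_eq_rightLim, StieltjesFunction.rightLim_eq]
  linarith

end Pool.Agent.H499R2.ND
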