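import Pool.Agent.H499R2.CL.Defs

/-! Project CL, task L: a good list of lengths (pure real analysis). -/

set_option autoImplicit false

namespace Pool.Agent.H499R2.ND

open Pool.Agent.H320R2.PD Finset Filter Topology

open Pool.Agent.H319R2.Lln (mu)

/-- the lengths `⌊0.45 g^j L⌋, ⌊0.45 g^(j+1) L⌋, ...` (`n` of them) -/
noncomputable def lensL (g L : ℝ) : ℕ → ℕ → List ℕ
  | _, 0 => []
  | j, n + 1 => ⌊0.45 * g ^ j * L⌋₊ :: lensL g L (j + 1) n

theorem lensL_length (g L : ℝ) (n : ℕ) : ∀ j : ℕ, (lensL g L j n).length = n := by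
  induction n with
  | zero => intro j; rfl
  | succ n ih => intro j; simp [lensL, ih]

theorem lensL_sum {g L : ℝ} (hg0 : 0 < g) (hg1 : g < 1) (hL : 0 ≤ L) (n : ℕ) : ∀ j : ℕ,
    |((lensL g L j n).sum : ℝ) - 0.45 * L * g ^ j * (1 - g ^ n) / (1 - g)| ≤ n := by
  have h1g : (1 - g) ≠ 0 := by linarith
  induction n with
  | zero => intro j; simp [lensL]
  | succ n ih =>
    intro j
    have h := ih (j + 1)
    have hx : 0 ≤ 0.45 * g ^ j * L := by positivity
    have h1 : ((⌊0.45 * g ^ j * L⌋₊ : ℕ) : ℝ) ≤ 0.45 * g ^ j * L := Nat.floor_le hx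
    have h2 : 0.45 * g ^ j * L < (⌊0.45 * g ^ j * L⌋₊ : ℕ) + 1 := Nat.lt_floor_add_one _
    have e : 0.45 * L * g ^ j * (1 - g ^ (n + 1)) / (1 - g)
        = 0.45 * g ^ j * L + 0.45 * L * g ^ (j + 1) * (1 - g ^ n) / (1 - g) := by
      field_simp
      ring
    have e2 : ((lensL g L j (n + 1)).sum : ℝ)
        = (⌊0.45 * g ^ j * L⌋₊ : ℕ) + ((lensL g L (j + 1) n).sum : ℝ) := by
      simp [lensL]
    rw [e, e2]
    rw [abs_le] at h ⊢
    rw [Nat.cast_succ]
    constructor <;> linarith [h.1, h.2]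

theorem mu_bounds_L : 0 < mu ∧ mu < 0.2 := by
  refine ⟨mu_pos', ?_⟩
  have h : Real.log (4 / 3) ≤ 4 / 3 - 1 := Real.log_le_sub_one_of_pos (by norm_num)
  unfold Pool.Agent.H319R2.Lln.mu
  norm_num at h ⊢
  linarith

theorem log_nextL {A : ℝ} (hA : 0 < A) (k T : ℕ) :
    Real.log (A * 3 ^ k / 2 ^ T) = Real.log A - 2 * mu * k - (T - 2 * k) * Real.log 2 := by
  rw [Real.log_div (by positivity) (by positivity), Real.log_mul hA.ne' (by positivity),
    Real.log_pow, Real.log_pow, Pool.Agent.H319R2.Lln.mu_eq]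
  ring

theorem gd_lensL {g L : ℝ} (hg : g = 1 - 0.9 * mu) (hL : 0 ≤ L) {J N : ℕ} (hN : 20 ≤ N)
    {A1 : ℝ} (hNJ : (J : ℝ) * (L / N + 2) ≤ g ^ J * L / 20) (hL2 : 1 ≤ 0.03 * g ^ J * L)
    (hA1 : |Real.log A1| ≤ g ^ J * L / 2) (n : ℕ) : ∀ (j : ℕ) (A : ℝ), j + n = J → 0 < A →
    |Real.log A - g ^ j * L| ≤ j * (L / N + 2) →
    Gd (fun A' => |Real.log A' - g ^ J * L| ≤ g ^ J * L / 20) N A1 (lensL g L j n) A := by
  obtain ⟨hmu0, hmu1⟩ := mu_bounds_L
  have hg0 : 0 < g := by rw [hg]; linarith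
  have hg1 : g < 1 := by rw [hg]; linarith
  have hN0 : (0 : ℝ) < N := by
    have : (20 : ℝ) ≤ N := by exact_mod_cast hN
    linarith
  have hN20 : (20 : ℝ) ≤ N := by exact_mod_cast hN
  induction n with
  | zero =>
    intro j A hj hA h
    have : j = J := by omega
    subst this
    show |Real.log A - g ^ j * L| ≤ g ^ j * L / 20
    exact h.trans hNJ
  | succ n ih =>
    intro j A hj hA h
    have hjJ : j ≤ J := by omega
    have hpow : g ^ J ≤ g ^ j := pow_le_pow_of_le_one hg0.le hg1.le hjJ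
    have hD : (j : ℝ) * (L / N + 2) ≤ J * (L / N + 2) := by
      have : (j : ℝ) ≤ J := by exact_mod_cast hjJ
      have h2 : 0 ≤ L / N + 2 := by positivity
      nlinarith
    have hpL : g ^ J * L ≤ g ^ j * L := mul_le_mul_of_nonneg_right hpow hL
    have hgj1 : g ^ j * L ≤ L := by
      have : g ^ j ≤ 1 := pow_le_one₀ hg0.le hg1.le
      nlinarith
    have hd20 : |Real.log A - g ^ j * L| ≤ g ^ j * L / 20 := by
      linarith
    have hd := abs_le.mp hd20
    have hx : 0 ≤ 0.45 * g ^ j * L := by positivity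
    have h1 : ((⌊0.45 * g ^ j * L⌋₊ : ℕ) : ℝ) ≤ 0.45 * g ^ j * L := Nat.floor_le hx
    have h2 : 0.45 * g ^ j * L < (⌊0.45 * g ^ j * L⌋₊ : ℕ) + 1 := Nat.lt_floor_add_one _
    set k := ⌊0.45 * g ^ j * L⌋₊ with hk
    show A1 ≤ A ∧ 2 / 5 * Real.log A ≤ k ∧ (k : ℝ) ≤ Real.log A / 2 ∧
      ∀ T : ℕ, N * |(T : ℝ) - 2 * k| ≤ k → Gd _ N A1 (lensL g L (j + 1) n) (A * 3 ^ k / 2 ^ T)
    refine ⟨?_, ?_, ?_, ?_⟩
    · rcases le_or_gt A1 0 with h0 | h0
      · linarith
      · have h3 : Real.log A1 ≤ Real.log A := by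
          have := le_abs_self (Real.log A1)
          nlinarith [hd.1]
        exact (Real.log_le_log_iff h0 hA).mp h3
    · nlinarith [hd.2]
    · nlinarith [hd.1]
    · intro T hT
      refine ih (j + 1) _ (by omega) (by positivity) ?_
      rw [log_nextL hA]
      have hlog2 : 0 < Real.log 2 := Real.log_pos (by norm_num)
      have hlog2' : Real.log 2 < 1 := by
        have := Real.log_two_lt_d9
        linarith
      have hT2 : |(T : ℝ) - 2 * k| ≤ L / N := by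
        rw [le_div_iff₀ hN0]
        have hk0 : (0 : ℝ) ≤ k := Nat.cast_nonneg _
        nlinarith
      have hT3 : |((T : ℝ) - 2 * k) * Real.log 2| ≤ L / N := by
        rw [abs_mul, abs_of_pos hlog2]
        have := abs_nonneg ((T : ℝ) - 2 * k)
        nlinarith
      have hT4 := abs_le.mp hT3
      have h5 : g ^ (j + 1) * L = g ^ j * L - 0.9 * mu * (g ^ j * L) := by
        rw [pow_succ]
        nth_rewrite 2 [hg]
        ring
      have h' := abs_le.mp h
      rw [h5]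
      push_cast
      have hmk1 : mu * k ≤ mu * (0.45 * g ^ j * L) := mul_le_mul_of_nonneg_left h1 hmu0.le
      have hmk2 : mu * (0.45 * g ^ j * L) ≤ mu * (k + 1) := mul_le_mul_of_nonneg_left h2.le hmu0.le
      rw [abs_le]
      constructor <;> nlinarith [h'.1, h'.2, hT4.1, hT4.2]

/-- **Task L.** A good list of lengths. -/
theorem lengths (J : ℕ) : ∃ N : ℕ, 20 ≤ N ∧ ∀ A1 : ℝ, ∃ L1 : ℝ, ∀ A : ℝ, 0 < A → L1 ≤ Real.log A →
    ∃ ks : List ℕ, ks.length = J ∧
      Gd (fun A' => |Real.log A' - (1 - 0.9 * mu) ^ J * Real.log A| ≤ (1 - 0.9 * mu) ^ J * Real.log A / 20)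
        N A1 ks A ∧
      |(ks.sum : ℝ) - (1 - (1 - 0.9 * mu) ^ J) * Real.log A / (2 * mu)| ≤ J := by
  obtain ⟨hmu0, hmu1⟩ := mu_bounds_L
  set g : ℝ := 1 - 0.9 * mu with hg
  have hg0 : 0 < g := by rw [hg]; linarith
  have hg1 : g < 1 := by rw [hg]; linarith
  have hgJ : 0 < g ^ J := pow_pos hg0 J
  refine ⟨max 20 ⌈40 * (J + 1) / g ^ J⌉₊, le_max_left _ _, ?_⟩
  set N : ℕ := max 20 ⌈40 * (J + 1) / g ^ J⌉₊ with hNdef
  have hN20n : 20 ≤ N := le_max_left _ _
  have hN20 : (20 : ℝ) ≤ N := by exact_mod_cast hN20n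
  have hNJ : 40 * (J + 1) / g ^ J ≤ N := by
    refine (Nat.le_ceil _).trans ?_
    have : ⌈40 * ((J : ℝ) + 1) / g ^ J⌉₊ ≤ N := le_max_right _ _
    exact_mod_cast this
  intro A1
  refine ⟨max (80 * (J + 1) / g ^ J) (2 * |Real.log A1| / g ^ J), ?_⟩
  intro A hA hL
  set L : ℝ := Real.log A with hLdef
  have hL1 : 80 * (J + 1) / g ^ J ≤ L := (le_max_left _ _).trans hL
  have hL2 : 2 * |Real.log A1| / g ^ J ≤ L := (le_max_right _ _).trans hL
  rw [div_le_iff₀ hgJ] at hL1 hL2 hNJ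
  have hJ0 : (0 : ℝ) ≤ J := Nat.cast_nonneg _
  have hL0 : 0 ≤ L := by
    by_contra hneg
    push Not at hneg
    nlinarith
  refine ⟨lensL g L 0 J, lensL_length g L J 0, ?_, ?_⟩
  · refine gd_lensL hg hL0 (le_max_left _ _) ?_ ?_ ?_ J 0 A (by omega) hA ?_
    · have hN0 : (0 : ℝ) < N := by linarith
      have h1 : (J : ℝ) * (L / N) ≤ g ^ J * L / 40 := by
        rw [← mul_div_assoc, div_le_div_iff₀ hN0 (by norm_num)]
        nlinarith
      nlinarith
    · nlinarith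
    · nlinarith
    · simp [hLdef]
  · have h := lensL_sum hg0 hg1 hL0 J 0
    have e : 0.45 * L * g ^ 0 * (1 - g ^ J) / (1 - g) = (1 - g ^ J) * L / (2 * mu) := by
      have : 1 - g = 0.9 * mu := by rw [hg]; ring
      rw [this]
      field_simp
      ring
    rw [e] at h
    exact h

end Pool.Agent.H499R2.ND
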