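import Pool.Agent.H499R2.CL.Defs

/-! Project CL, task M, part 1: parameters. -/

set_option autoImplicit false

namespace Pool.Agent.H499R2.ND

open Pool.Agent.H320R2.PD Finset Filter Topology

open Pool.Agent.H319R2.Lln (mu)

theorem mu_bounds : 0.14 ≤ mu ∧ mu ≤ 0.15 := by
  have h := Pool.Agent.H319R2.Lln.mu_eq
  have h1 := Real.log_two_gt_d9
  have h2 := Real.log_two_lt_d9
  -- 3^12 ≤ 2^(19.1) : use 3^53 ≤ 2^84.003 ; bounds 19/12, 27/17
  have h3 : 19 / 12 * Real.log 2 ≤ Real.log 3 := log3_ge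
  have h4 : Real.log 3 ≤ 27 / 17 * Real.log 2 := by
    have e1 : (17 : ℝ) * Real.log 3 = Real.log (3 ^ 17) := by rw [Real.log_pow]; norm_num
    have e2 : (27 : ℝ) * Real.log 2 = Real.log (2 ^ 27) := by rw [Real.log_pow]; norm_num
    have e3 : Real.log ((3 : ℝ) ^ 17) ≤ Real.log (2 ^ 27) := Real.log_le_log (by norm_num) (by norm_num)
    linarith
  rw [h]
  constructor <;> linarith

theorem c0_pos : 0 < c0 := by
  unfold c0
  have := mu_pos'
  have := Real.log_pos (by norm_num : (1 : ℝ) < 3)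
  positivity

theorem sg_pos : 0 < sg := by
  unfold sg
  have := Real.sqrt_pos.2 mu_pos'
  have := c0_pos
  positivity

theorem sqrt_sub_le {a b : ℝ} (ha : 0 ≤ a) (hb : 0 ≤ b) : |Real.sqrt a - Real.sqrt b| ≤ Real.sqrt |a - b| := by
  apply Real.le_sqrt_of_sq_le
  rw [sq_abs]
  have h1 : |Real.sqrt a - Real.sqrt b| * |Real.sqrt a - Real.sqrt b|
      ≤ |Real.sqrt a - Real.sqrt b| * (Real.sqrt a + Real.sqrt b) := by
    apply mul_le_mul_of_nonneg_left _ (abs_nonneg _)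
    rw [abs_le]
    have := Real.sqrt_nonneg a
    have := Real.sqrt_nonneg b
    constructor <;> linarith
  have h2 : |Real.sqrt a - Real.sqrt b| * (Real.sqrt a + Real.sqrt b) = |a - b| := by
    rw [← abs_of_nonneg (show 0 ≤ Real.sqrt a + Real.sqrt b by positivity), ← abs_mul]
    congr 1
    have e1 := Real.mul_self_sqrt ha
    have e2 := Real.mul_self_sqrt hb
    linarith
  rw [← sq_abs, sq]
  linarith

theorem key_len (z Kt : ℝ) {θ : ℝ} (hθ : 0 < θ) : ∃ J : ℕ, 1 ≤ J ∧ ∃ L2 : ℝ, ∀ L : ℝ,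
    L2 ≤ L → ∀ K : ℕ, |(K : ℝ) - (1 - (1 - 0.9 * mu) ^ J) * L / (2 * mu)| ≤ J →
      Kt * Real.sqrt (1.05 * ((1 - 0.9 * mu) ^ J * L)) - z * sg * Real.sqrt L
        ≤ c0 * (-z + θ) * Real.sqrt (2 * K) := by
  have hmu := mu_pos'
  have hmb := mu_bounds
  have hsg := sg_pos
  have hc0 := c0_pos
  set g : ℝ := 1 - 0.9 * mu with hg
  have hg0 : 0 < g := by rw [hg]; linarith [hmb.2]
  have hg1 : g < 1 := by rw [hg]; linarith
  have hgJ : Tendsto (fun J : ℕ => g ^ J) atTop (𝓝 0) := tendsto_pow_atTop_nhds_zero_of_lt_one hg0.le hg1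
  have hf : Tendsto (fun J : ℕ => Kt * Real.sqrt (1.05 * g ^ J) - z * sg - (-z + θ) * sg * Real.sqrt (1 - g ^ J))
      atTop (𝓝 (Kt * Real.sqrt (1.05 * 0) - z * sg - (-z + θ) * sg * Real.sqrt (1 - 0))) :=
    (((hgJ.const_mul 1.05).sqrt.const_mul Kt).sub_const (z * sg)).sub
      ((hgJ.const_sub 1).sqrt.const_mul ((-z + θ) * sg))
  rw [mul_zero, Real.sqrt_zero, mul_zero, sub_zero, Real.sqrt_one] at hf
  have hlt : 0 - z * sg - (-z + θ) * sg * 1 < -(θ * sg / 2) := by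
    have : 0 < θ * sg := by positivity
    linarith
  obtain ⟨J, hJ, hJ1⟩ := ((hf.eventually (gt_mem_nhds hlt)).and (eventually_ge_atTop 1)).exists
  refine ⟨J, hJ1, max 0 ((2 * c0 * |(-z + θ)| * Real.sqrt (2 * J) / (θ * sg)) ^ 2), ?_⟩
  intro L hL K hK
  have hL0 : 0 ≤ L := (le_max_left _ _).trans hL
  have hLq : 2 * c0 * |(-z + θ)| * Real.sqrt (2 * J) / (θ * sg) ≤ Real.sqrt L :=
    Real.le_sqrt_of_sq_le ((le_max_right _ _).trans hL)
  set q := Real.sqrt L with hq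
  have hq0 : 0 ≤ q := Real.sqrt_nonneg _
  have hgJ1 : g ^ J ≤ 1 := pow_le_one₀ hg0.le hg1.le
  have hgJ0 : 0 < g ^ J := by positivity
  have e1 : Real.sqrt (1.05 * (g ^ J * L)) = Real.sqrt (1.05 * g ^ J) * q := by
    rw [← mul_assoc, Real.sqrt_mul (by positivity)]
  have e2 : |Real.sqrt (2 * K) - Real.sqrt ((1 - g ^ J) * L / mu)| ≤ Real.sqrt (2 * J) := by
    refine (sqrt_sub_le (by positivity) (by
      apply div_nonneg _ hmu.le
      exact mul_nonneg (by linarith) hL0)).trans ?_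
    apply Real.sqrt_le_sqrt
    have : 2 * (K : ℝ) - (1 - g ^ J) * L / mu = 2 * ((K : ℝ) - (1 - g ^ J) * L / (2 * mu)) := by
      field_simp
    rw [this, abs_mul, abs_of_pos (by norm_num : (0 : ℝ) < 2)]
    linarith
  have e3 : c0 * Real.sqrt ((1 - g ^ J) * L / mu) = sg * Real.sqrt (1 - g ^ J) * q := by
    rw [Real.sqrt_div (mul_nonneg (by linarith) hL0), Real.sqrt_mul (by linarith)]
    unfold sg
    have := Real.sqrt_pos.2 hmu
    field_simp
    rfl
  rw [e1]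
  have e4 : c0 * (-z + θ) * Real.sqrt ((1 - g ^ J) * L / mu) - c0 * |(-z + θ)| * Real.sqrt (2 * J)
      ≤ c0 * (-z + θ) * Real.sqrt (2 * K) := by
    have h1 : c0 * (-z + θ) * (Real.sqrt ((1 - g ^ J) * L / mu) - Real.sqrt (2 * K))
        ≤ c0 * |(-z + θ)| * Real.sqrt (2 * J) := by
      have h2 : (-z + θ) * (Real.sqrt ((1 - g ^ J) * L / mu) - Real.sqrt (2 * K))
          ≤ |(-z + θ)| * Real.sqrt (2 * J) := by
        refine (le_abs_self _).trans ?_
        rw [abs_mul]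
        apply mul_le_mul_of_nonneg_left _ (abs_nonneg _)
        rw [abs_sub_comm]
        exact e2
      calc c0 * (-z + θ) * (Real.sqrt ((1 - g ^ J) * L / mu) - Real.sqrt (2 * K))
          = c0 * ((-z + θ) * (Real.sqrt ((1 - g ^ J) * L / mu) - Real.sqrt (2 * K))) := by ring
        _ ≤ c0 * (|(-z + θ)| * Real.sqrt (2 * J)) := mul_le_mul_of_nonneg_left h2 hc0.le
        _ = _ := by ring
    linarith
  refine le_trans ?_ e4
  have e5 : c0 * (-z + θ) * Real.sqrt ((1 - g ^ J) * L / mu) = (-z + θ) * (sg * Real.sqrt (1 - g ^ J) * q) := by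
    rw [← e3]; ring
  rw [e5]
  have e6 : c0 * |(-z + θ)| * Real.sqrt (2 * J) ≤ θ * sg / 2 * q := by
    rw [div_le_iff₀ (by positivity)] at hLq
    linarith
  have e7 : (Kt * Real.sqrt (1.05 * g ^ J) - z * sg - (-z + θ) * sg * Real.sqrt (1 - g ^ J)) * q
      ≤ -(θ * sg / 2) * q := mul_le_mul_of_nonneg_right hJ.le hq0
  linarith

end Pool.Agent.H499R2.ND
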