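import Pool.Agent.H499R2.CL.Defs

/-! Project CL, task N: from windows of odd integers to natural densities. -/

set_option autoImplicit false

namespace Pool.Agent.H499R2.ND

open Pool.Agent.H320R2.PD Finset Filter Topology

theorem n_odd_count {S : Set ℤ} {r A0 : ℝ} (hr : 0 ≤ r) (hA0 : 0 < A0)
    (h : ∀ A : ℝ, A0 ≤ A → PB S A 0 r) :
    ∀ n : ℕ, ∀ X : ℝ, 0 ≤ X → X ≤ 2 ^ n → ((cls S 0 X 0 1 0).card : ℝ) ≤ r * X / 2 + (2 * A0 + 1) := by
  have hsmall : ∀ X : ℝ, 0 ≤ X → X ≤ 2 * A0 → ((cls S 0 X 0 1 0).card : ℝ) ≤ r * X / 2 + (2 * A0 + 1) := by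
    intro X hX hXA
    classical
    have h1 : (cls S 0 X 0 1 0).card ≤ (Ico ⌈(0 : ℝ)⌉ ⌈X⌉).card := by
      unfold cls
      exact card_filter_le _ _
    rw [Int.ceil_zero, Int.card_Ico, sub_zero] at h1
    have h2 : ((cls S 0 X 0 1 0).card : ℝ) ≤ ((⌈X⌉.toNat : ℕ) : ℝ) := by exact_mod_cast h1
    have h3 : ((⌈X⌉.toNat : ℕ) : ℝ) = (⌈X⌉ : ℝ) := by
      have : ((⌈X⌉.toNat : ℕ) : ℤ) = ⌈X⌉ := Int.toNat_of_nonneg (Int.ceil_nonneg hX)
      exact_mod_cast this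
    have h4 := Int.ceil_lt_add_one X
    rw [h3] at h2
    have h5 : 0 ≤ r * X / 2 := by positivity
    linarith
  intro n
  induction n with
  | zero =>
    intro X hX hX1
    rcases le_or_gt X (2 * A0) with h1 | h1
    · exact hsmall X hX h1
    · have h2 : cls S 0 X 0 1 0 = ∅ := by
        rw [Finset.eq_empty_iff_forall_notMem]
        intro x hx
        rw [mem_cls] at hx
        have h1 : (x : ℝ) < 1 := lt_of_lt_of_le hx.1.2 (by simpa using hX1)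
        have h2 : (0 : ℝ) ≤ x := hx.1.1
        have h3 : x < 1 := by exact_mod_cast h1
        have h4 : 0 ≤ x := by exact_mod_cast h2
        have h5 : x = 0 := by omega
        rw [h5] at hx
        exact absurd hx.2.1 (by decide)
      rw [h2, card_empty, Nat.cast_zero]
      positivity
  | succ n ih =>
    intro X hX hXn
    rcases le_or_gt X (2 * A0) with h1 | h1
    · exact hsmall X hX h1
    classical
    have hsub : cls S 0 X 0 1 0 ⊆ cls S 0 (X / 2) 0 1 0 ∪ cls S (X / 2) (2 * (X / 2)) 0 1 0 := by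
      intro x hx
      rw [mem_cls] at hx
      rw [mem_union, mem_cls, mem_cls]
      rcases lt_or_ge (x : ℝ) (X / 2) with h1 | h1
      · exact Or.inl ⟨⟨hx.1.1, h1⟩, hx.2⟩
      · exact Or.inr ⟨⟨h1, by linarith [hx.1.2]⟩, hx.2⟩
    have h1 : ((cls S 0 X 0 1 0).card : ℝ)
        ≤ (cls S 0 (X / 2) 0 1 0).card + (cls S (X / 2) (2 * (X / 2)) 0 1 0).card := by
      exact_mod_cast (card_le_card hsub).trans (card_union_le _ _)
    have h2 := ih (X / 2) (by linarith) (by rw [pow_succ] at hXn; linarith)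
    have h3 := h (X / 2) (by linarith) 1 0 isCoprime_one_left
    rw [pow_zero, mul_one] at h3
    linarith

theorem n_split (Q : ℕ → Prop) (N : ℕ) :
    cnt Q N ≤ ((cls {x : ℤ | 0 < x ∧ Q x.toNat} 0 (N + 1) 0 1 0).card : ℝ)
      + cnt (fun n => Q (2 * n)) (N / 2) := by
  classical
  rw [cnt_eq, cnt_eq]
  have hsub : (Icc 1 N).filter Q ⊆
      (cls {x : ℤ | 0 < x ∧ Q x.toNat} 0 (N + 1) 0 1 0).image Int.toNat ∪
        ((Icc 1 (N / 2)).filter (fun n => Q (2 * n))).image (fun n => 2 * n) := by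
    intro n hn
    rw [mem_filter, mem_Icc] at hn
    obtain ⟨⟨h1, h2⟩, h3⟩ := hn
    rw [mem_union, mem_image, mem_image]
    rcases Nat.even_or_odd n with he | ho
    · right
      obtain ⟨t, ht⟩ := he
      refine ⟨t, ?_, by omega⟩
      rw [mem_filter, mem_Icc]
      refine ⟨⟨by omega, by omega⟩, ?_⟩
      rw [show 2 * t = n by omega]; exact h3
    · left
      refine ⟨(n : ℤ), ?_, by simp⟩
      rw [mem_cls]
      refine ⟨⟨by push_cast; positivity, ?_⟩, by exact_mod_cast ho, ⟨by omega, by simpa using h3⟩, ?_⟩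
      · have : (n : ℝ) ≤ N := by exact_mod_cast h2
        push_cast
        linarith
      · rw [pow_zero]; exact one_dvd _
  have h1 := (card_le_card hsub).trans (card_union_le _ _)
  have h2 : ((cls {x : ℤ | 0 < x ∧ Q x.toNat} 0 (N + 1) 0 1 0).image Int.toNat).card
      ≤ (cls {x : ℤ | 0 < x ∧ Q x.toNat} 0 (N + 1) 0 1 0).card := card_image_le
  have h3 : (((Icc 1 (N / 2)).filter (fun n => Q (2 * n))).image (fun n => 2 * n)).card
      ≤ ((Icc 1 (N / 2)).filter (fun n => Q (2 * n))).card := card_image_le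
  have h4 := h1.trans (Nat.add_le_add h2 h3)
  exact_mod_cast h4

theorem n_levels {Q : ℕ → Prop} {r : ℝ} (hr : 0 ≤ r)
    (h : ∀ a : ℕ, ∃ A0 : ℝ, 0 < A0 ∧ ∀ A : ℝ, A0 ≤ A →
      PB {x : ℤ | 0 < x ∧ Q (2 ^ a * x.toNat)} A 0 r) (a0 : ℕ) :
    ∀ a : ℕ, ∃ C : ℝ, 0 ≤ C ∧ ∀ N : ℕ, cnt (fun n => Q (2 ^ a * n)) N ≤ r * N + C + N / 2 ^ a0 := by
  induction a0 with
  | zero =>
    intro a
    refine ⟨0, le_rfl, fun N => ?_⟩
    have h1 := cnt_le (fun n => Q (2 ^ a * n)) N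
    have h2 : 0 ≤ r * N := by positivity
    rw [pow_zero, div_one]
    linarith
  | succ a0 ih =>
    intro a
    obtain ⟨C, hC, hN⟩ := ih (a + 1)
    obtain ⟨A0, hA0, hA⟩ := h a
    refine ⟨C + r / 2 + (2 * A0 + 1), by positivity, fun N => ?_⟩
    have h1 := n_split (fun n => Q (2 ^ a * n)) N
    obtain ⟨n, hn⟩ := pow_unbounded_of_one_lt ((N : ℝ) + 1) (by norm_num : (1 : ℝ) < 2)
    have h2 := n_odd_count hr hA0 hA n ((N : ℝ) + 1) (by positivity) hn.le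
    have h3 := hN (N / 2)
    have h4 : ((N / 2 : ℕ) : ℝ) ≤ (N : ℝ) / 2 := Nat.cast_div_le
    have h5 : (fun n => Q (2 ^ a * (2 * n))) = (fun n => Q (2 ^ (a + 1) * n)) := by
      funext n
      rw [pow_succ, mul_assoc]
    rw [h5] at h1
    have h6 : ((N / 2 : ℕ) : ℝ) / 2 ^ a0 ≤ (N : ℝ) / 2 ^ (a0 + 1) := by
      rw [pow_succ, mul_comm ((2 : ℝ) ^ a0) 2, ← div_div]
      exact div_le_div_of_nonneg_right h4 (by positivity)
    have h7 : r * ((N / 2 : ℕ) : ℝ) ≤ r * ((N : ℝ) / 2) := mul_le_mul_of_nonneg_left h4 hr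
    linarith

theorem dens_of_windows {Q : ℕ → Prop} {ρ : ℝ} (hρ : 0 ≤ ρ)
    (h : ∀ a : ℕ, ∀ ε : ℝ, 0 < ε → ∃ A0 : ℝ, 0 < A0 ∧ ∀ A : ℝ, A0 ≤ A →
      PB {x : ℤ | 0 < x ∧ Q (2 ^ a * x.toNat)} A 0 (ρ + ε)) {ε : ℝ} (hε : 0 < ε) :
    ∀ᶠ N : ℕ in atTop, cnt Q N ≤ (ρ + ε) * N := by
  obtain ⟨a0, ha0⟩ := exists_pow_lt_of_lt_one (by positivity : 0 < ε / 4) (by norm_num : (1 / 2 : ℝ) < 1)
  obtain ⟨C, hC, hN⟩ := n_levels (r := ρ + ε / 2) (by positivity)
    (fun a => h a (ε / 2) (by positivity)) a0 0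
  filter_upwards [eventually_ge_atTop ⌈4 * C / ε⌉₊] with N hNC
  have h1 := hN N
  simp only [pow_zero, one_mul] at h1
  have h2 : 4 * C / ε ≤ N := (Nat.le_ceil _).trans (by exact_mod_cast hNC)
  rw [div_le_iff₀ hε] at h2
  have h3 : (N : ℝ) / 2 ^ a0 ≤ ε / 4 * N := by
    have : (N : ℝ) / 2 ^ a0 = (1 / 2) ^ a0 * N := by
      rw [one_div, inv_pow, div_eq_inv_mul]
    rw [this]
    exact mul_le_mul_of_nonneg_right ha0.le (Nat.cast_nonneg _)
  have h4 : cnt Q N ≤ (ρ + ε / 2) * N + C + (N : ℝ) / 2 ^ a0 := h1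
  nlinarith

end Pool.Agent.H499R2.ND
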