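import Pool.Agent.H499R2.CL.Defs
import Pool.Agent.H319R2.Orbit

/-! Project CL, task P: trajectories are sparse. -/

set_option autoImplicit false

namespace Pool.Agent.H499R2.ND

open Pool.Agent.H320R2.PD Finset Filter Topology

theorem p_map : Td 1 = Pool.Agent.H319R2.T := by
  funext x
  rfl

theorem p_log3 : Real.log 3 ≤ 1.12 := by
  have h1 := log3_le
  have h2 := Real.log_two_lt_d9
  linarith

/-- the elementary inequality behind the sparsity -/
theorem p_real {t m : ℝ} (ht : 1 ≤ t) (hm0 : 0 ≤ m) (hm : m ^ 2 ≤ t) :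
    t * (Real.exp (0.951 * t) * Real.exp (m * Real.log 3)) ≤ 100 * Real.exp 40 * Real.exp t := by
  have h1 : t ≤ 100 * Real.exp (0.01 * t) := by
    have := Real.add_one_le_exp (0.01 * t)
    linarith
  have h2 : m * Real.log 3 ≤ 0.03 * t + 40 := by
    have h3 := p_log3
    have h4 : m * Real.log 3 ≤ m * 1.12 := mul_le_mul_of_nonneg_left h3 hm0
    nlinarith [sq_nonneg (m - 20)]
  calc t * (Real.exp (0.951 * t) * Real.exp (m * Real.log 3))
      ≤ (100 * Real.exp (0.01 * t)) * (Real.exp (0.951 * t) * Real.exp (0.03 * t + 40)) := by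
        apply mul_le_mul h1 _ (by positivity) (by positivity)
        exact mul_le_mul_of_nonneg_left (Real.exp_le_exp.mpr h2) (Real.exp_pos _).le
    _ = 100 * Real.exp (0.991 * t + 40) := by
        rw [← Real.exp_add, mul_assoc, ← Real.exp_add]
        congr 2; ring
    _ ≤ 100 * Real.exp (40 + t) := by
        apply mul_le_mul_of_nonneg_left _ (by norm_num)
        apply Real.exp_le_exp.mpr
        linarith
    _ = 100 * Real.exp 40 * Real.exp t := by rw [Real.exp_add]; ring

theorem orbit_sp (a : ℤ) : Sp {y : ℤ | ∃ j : ℕ, (Td 1)^[j] a = y} := by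
  obtain ⟨B, hB, hspar⟩ := Pool.Agent.H319R2.orbit_sparse 0.951 (by
    have := Pool.Agent.H319R2.beta_lt
    linarith)
  refine ⟨B * 2 * 2 * (100 * Real.exp 40), by positivity, ?_⟩
  intro A hA hlA m hm u v hu
  have hA1 : 1 ≤ A := by
    by_contra hc
    push Not at hc
    have := Real.log_nonpos hA.le hc.le
    linarith
  set t := Real.log A with htdef
  have hAt : A = Real.exp t := (Real.exp_log hA).symm
  have h1 := hspar a (2 * A) (by linarith) (cls {y : ℤ | ∃ j : ℕ, (Td 1)^[j] a = y} A (2 * A) m u v) (by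
    intro y hy
    rw [mem_cls] at hy
    obtain ⟨⟨hy1, hy2⟩, _, ⟨j, hj⟩, _⟩ := hy
    refine ⟨⟨j, by rw [← p_map]; exact hj⟩, ?_⟩
    rw [abs_of_nonneg (by linarith)]
    exact hy2.le)
  refine h1.trans ?_
  have h2 : (2 * A) ^ (0.951 : ℝ) ≤ 2 * Real.exp (0.951 * t) := by
    rw [Real.mul_rpow (by norm_num) hA.le]
    have h3 : (2 : ℝ) ^ (0.951 : ℝ) ≤ 2 := by
      calc (2 : ℝ) ^ (0.951 : ℝ) ≤ 2 ^ (1 : ℝ) := Real.rpow_le_rpow_of_exponent_le (by norm_num) (by norm_num)
        _ = 2 := Real.rpow_one 2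
    have h4 : A ^ (0.951 : ℝ) = Real.exp (0.951 * t) := by
      rw [Real.rpow_def_of_pos hA, ← htdef, mul_comm]
    rw [h4]
    exact mul_le_mul_of_nonneg_right h3 (Real.exp_pos _).le
  have h5 : ((3 : ℝ) ^ m) = Real.exp (m * Real.log 3) := by
    rw [mul_comm, Real.exp_mul, Real.exp_log (by norm_num), Real.rpow_natCast]
  have h6 := p_real hlA (Nat.cast_nonneg m) hm
  rw [← h5] at h6
  have ht0 : 0 < t := by linarith
  have h3m : (0 : ℝ) < 3 ^ m := by positivity
  have h7 : Real.exp (0.951 * t) ≤ (100 * Real.exp 40) * Real.exp t / (t * 3 ^ m) := by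
    rw [le_div_iff₀ (by positivity)]
    calc Real.exp (0.951 * t) * (t * 3 ^ m) = t * (Real.exp (0.951 * t) * 3 ^ m) := by ring
      _ ≤ _ := h6
  calc B * (2 * A) ^ (0.951 : ℝ) ≤ B * (2 * Real.exp (0.951 * t)) := mul_le_mul_of_nonneg_left h2 hB.le
    _ ≤ B * (2 * ((100 * Real.exp 40) * Real.exp t / (t * 3 ^ m))) := by
        apply mul_le_mul_of_nonneg_left _ hB.le
        linarith
    _ = B * 2 * 2 * (100 * Real.exp 40) / t * (A / (2 * 3 ^ m)) := by
        rw [← hAt]
        field_simp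

end Pool.Agent.H499R2.ND
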