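import Pool.Agent.H499R2.CL.H
import Pool.Agent.H499R2.CL.P
import Pool.Agent.H499R2.CL.N
import Pool.Agent.H499R2.CL.O1x

/-! Project CL: the first meeting with the trajectory of `a` happens at a bounded value. -/

set_option autoImplicit false

namespace Pool.Agent.H499R2.ND

open Pool.Agent.H320R2.PD Finset Filter Topology

open Pool.Agent.H319R2.Lln (mu)

/-- the trajectory of `n` meets the one of `a` for the first time at a value above `Y` -/
def Bg (a Y : ℕ) (n : ℕ) : Prop := ∃ k, (∃ j, Tn^[k] n = Tn^[j] a) ∧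
  (∀ i < k, ¬ ∃ j, Tn^[i] n = Tn^[j] a) ∧ Y < Tn^[k] n

/-- the integer version -/
def BgZ (R : Set ℤ) (Y : ℤ) : Set ℤ := {x : ℤ | 0 < x ∧ ∃ k : ℕ, (Td 1)^[k] x ∈ R ∧
  (∀ i < k, (Td 1)^[i] x ∉ R) ∧ Y < (Td 1)^[k] x}

theorem BgZ_word {R : Set ℤ} (hR : FC R) {Y : ℤ} {w : List ℕ} (hw : ∀ a ∈ w, 1 ≤ a) {M x : ℤ}
    (hM : Odd M) (hx : Odd x) (hM0 : 0 < M) (hMS : M ∈ BgZ R Y) (h : Vw 1 w M x) :
    x ∈ BgZ R Y ∪ R := by
  have hT := iter_word odd_one w hw M x hM hx h
  obtain ⟨_, k, hk, hmin, hY⟩ := hMS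
  rcases le_or_gt w.sum k with hc | hc
  · left
    refine ⟨a_Vw_pos hM0 h, k - w.sum, ?_, ?_, ?_⟩
    · rw [← hT, ← Function.iterate_add_apply, Nat.sub_add_cancel hc]
      exact hk
    · intro i hi
      rw [← hT, ← Function.iterate_add_apply]
      exact hmin _ (by omega)
    · rw [← hT, ← Function.iterate_add_apply, Nat.sub_add_cancel hc]
      exact hY
  · right
    have e : w.sum = (w.sum - k) + k := by omega
    rw [← hT, e, Function.iterate_add_apply]
    exact a_FC_iter hR hk _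

/-- the integers below `y` meet `R` first at values bounded by `Y` -/
theorem exY (R : Set ℤ) (y : ℝ) : ∃ Y : ℕ, ∀ x : ℤ, 0 < x → (x : ℝ) < y → x ∉ BgZ R Y := by
  classical
  have hM : ∀ a : ℕ, ∃ M : ℕ, ∀ k : ℕ, (Td 1)^[k] (a : ℤ) ∈ R → (∀ i < k, (Td 1)^[i] (a : ℤ) ∉ R) →
      (Td 1)^[k] (a : ℤ) ≤ M := by
    intro a
    by_cases h : ∃ k, (Td 1)^[k] (a : ℤ) ∈ R
    · refine ⟨((Td 1)^[Nat.find h] (a : ℤ)).toNat, ?_⟩
      intro k hk hmin
      have : k = Nat.find h := by
        apply le_antisymm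
        · by_contra hcon
          exact hmin _ (not_le.1 hcon) (Nat.find_spec h)
        · exact Nat.find_min' h hk
      rw [this]
      exact Int.self_le_toNat _
    · exact ⟨0, fun k hk => absurd ⟨k, hk⟩ h⟩
  choose M hM using hM
  refine ⟨(range (⌈y⌉₊ + 1)).sup M, fun x hx hxy hm => ?_⟩
  obtain ⟨a, rfl⟩ := Int.eq_ofNat_of_zero_le hx.le
  obtain ⟨_, k, hk, hmin, hY⟩ := hm
  have h1 := hM a k hk hmin
  have h2 : M a ≤ (range (⌈y⌉₊ + 1)).sup M := by
    refine Finset.le_sup (f := M) (mem_range.2 ?_)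
    have h1 : (a : ℝ) < y := by exact_mod_cast hxy
    have h2 : (a : ℝ) ≤ ⌈y⌉₊ := h1.le.trans (Nat.le_ceil _)
    have : a ≤ ⌈y⌉₊ := by exact_mod_cast h2
    omega
  have h3 : (M a : ℤ) ≤ ((range (⌈y⌉₊ + 1)).sup M : ℕ) := by exact_mod_cast h2
  omega

theorem BgZ_PB {R : Set ℤ} (hR : FC R) (hS : Sp R) {η : ℝ} (hη : 0 < η) : ∃ (Y : ℕ) (A0 : ℝ), 0 < A0 ∧
    ∀ A : ℝ, A0 ≤ A → ∀ m : ℕ, (m : ℝ) ^ 2 ≤ Real.log A → PB (BgZ R Y) A m η := by
  obtain ⟨C, hC, hall⟩ := all_scalesW
  obtain ⟨CR, hCR, hCR'⟩ := hS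
  obtain ⟨K, hK4, hKη⟩ := TG.exK hC hη
  obtain ⟨y, hy, hy1000, hyη⟩ := TG.exy (C := C * (1 + CR)) (by positivity) hη
  obtain ⟨Y, hY⟩ := exY R y
  refine ⟨Y, y, hy, ?_⟩
  intro A hA m hm
  have hA0 : 0 < A := hy.trans_le hA
  have hAy : y / 2 < A := by linarith
  have hL1 : 1000 ≤ Real.log A := hy1000.trans (Real.log_le_log (by positivity) hAy.le)
  have key := hall K (Real.log A) y CR hK4 hCR hy hy1000 Unit (fun _ => BgZ R Y) R
    (fun _ _ => True) (fun _ _ => ()) ?_ ?_ ?_ ?_ () A hAy trivial le_rfl m hm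
  · refine PB_mono hA0 ?_ key
    have h1 : Real.log A / Real.log A = 1 := div_self (by linarith)
    rw [h1]
    linarith
  · intro _ A' hA' _ hAy' m' u v hu
    have hemp : cls (BgZ R Y) A' (2 * A') m' u v = ∅ := by
      rw [Finset.eq_empty_iff_forall_notMem]
      intro x hx
      rw [mem_cls] at hx
      obtain ⟨⟨h1, h2⟩, _, h4, _⟩ := hx
      have hx0 : 0 < x := by
        have : (0 : ℝ) < x := hA'.trans_le h1
        exact_mod_cast this
      exact hY x hx0 (by linarith) h4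
    rw [hemp]
    simp
  · intro A' hA' h8 m' hm'
    exact hCR' A' hA' (by linarith) m' hm'
  · intro _ _ _ _ _ _ _ _
    trivial
  · intro _ w hw M x hM hx hM0 hMS h
    exact BgZ_word hR hw hM hx hM0 hMS h

theorem Bg_small (a : ℕ) {η : ℝ} (hη : 0 < η) : ∃ Y : ℕ, ∀ᶠ N : ℕ in atTop, cnt (Bg a Y) N ≤ η * N := by
  obtain ⟨Y, A1, hA1, hA1'⟩ := BgZ_PB (orb_FC a) (orbit_sp (a : ℤ)) (show 0 < η / 2 by positivity)
  obtain ⟨CR, hCR, hCR'⟩ := orbit_sp (a : ℤ)
  refine ⟨Y, ?_⟩
  have h := dens_of_windows (Q := Bg a Y) (ρ := η / 2) (by positivity)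
    (by
      intro b ε' hε'
      refine ⟨max (max A1 (Y + 1)) (Real.exp (max 1 (CR / ε'))), lt_max_of_lt_left (lt_max_of_lt_left hA1), ?_⟩
      intro A hA
      have hA0 : 0 < A := hA1.trans_le (((le_max_left _ _).trans (le_max_left _ _)).trans hA)
      have hLA : max 1 (CR / ε') ≤ Real.log A := by
        rw [Real.le_log_iff_exp_le hA0]; exact (le_max_right _ _).trans hA
      have hL1 : 1 ≤ Real.log A := (le_max_left _ _).trans hLA
      have hL2 : CR / ε' ≤ Real.log A := (le_max_right _ _).trans hLA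
      have hAY : (Y : ℝ) + 1 ≤ A := ((le_max_right _ _).trans (le_max_left _ _)).trans hA
      have hP1 := hA1' A (((le_max_left _ _).trans (le_max_left _ _)).trans hA) 0
        (by simpa using (by linarith : (0 : ℝ) ≤ Real.log A))
      have hP2 : PB (orb a) A 0 (CR / Real.log A) := hCR' A hA0 hL1 0
        (by simpa using (by linarith : (0 : ℝ) ≤ Real.log A))
      have hP3 := PB_union hP1 hP2
      have hle : η / 2 + CR / Real.log A ≤ η / 2 + ε' := by
        have : CR / Real.log A ≤ ε' := by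
          rw [div_le_iff₀ (by linarith)]
          rw [div_le_iff₀ hε'] at hL2
          linarith
        linarith
      refine PB_sub (fun y hy1 hy2 hy => ?_) (PB_mono hA0 hle hP3)
      obtain ⟨hy0, k, ⟨j, hj⟩, hmin, hY⟩ := hy
      obtain ⟨n, rfl⟩ : ∃ n : ℕ, y = n := ⟨y.toNat, (Int.toNat_of_nonneg (by omega)).symm⟩
      rw [Int.toNat_natCast] at hj hmin hY
      rcases le_or_gt b k with hbk | hbk
      · left
        have e : k = (k - b) + b := by omega
        refine ⟨hy0, k - b, ?_, ?_, ?_⟩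
        · rw [orb_cast]
          refine ⟨j, ?_⟩
          rw [← hj]
          conv_rhs => rw [e, Function.iterate_add_apply, Tn_two_pow]
        · intro i hi hi'
          rw [orb_cast] at hi'
          apply hmin (i + b) (by omega)
          rw [Function.iterate_add_apply, Tn_two_pow]
          exact hi'
        · rw [Td_iter_cast]
          rw [e, Function.iterate_add_apply, Tn_two_pow] at hY
          exact_mod_cast hY
      · right
        have : (Td 1)^[0] (n : ℤ) ∈ orb a := by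
          rw [orb_cast]
          refine ⟨(b - k) + j, ?_⟩
          rw [Function.iterate_add_apply, ← hj, ← Function.iterate_add_apply]
          have : b - k + k = b := by omega
          rw [this, Tn_two_pow]; rfl
        simpa using this)
    (show 0 < η / 2 by positivity)
  filter_upwards [h] with N hN
  linarith

end Pool.Agent.H499R2.ND
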