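import Pool.Agent.H499R2.CL.O3

/-! Project CL: final form for the Collatz map, from the theorem for the shortcut map. -/

set_option autoImplicit false

namespace Pool.Agent.H499R2.ND

open Pool.Agent.H320R2.PD Finset Filter Topology

open Pool.Agent.H319R2.Lln (mu)

/-- the classes of the two maps are the same -/
theorem classC (a n : ℕ) : (∃ i j : ℕ, CC^[i] n = CC^[j] a) ↔ Cn a n := by
  constructor
  · rintro ⟨i, j, h⟩
    obtain ⟨k, l, h', _⟩ := meetC h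
    exact ⟨k, l, h'⟩
  · rintro ⟨i, j, h⟩
    exact ⟨i + on i n, j + on j a, by rw [← accelN, ← accelN, h]⟩

theorem Cn_one_bas (n : ℕ) : Cn 1 n ↔ Bas n := by
  have h1 : ∀ j : ℕ, Tn^[j] 1 = 1 ∨ Tn^[j] 1 = 2 := by
    intro j
    induction j with
    | zero => left; rfl
    | succ j ih =>
      rw [Function.iterate_succ_apply']
      rcases ih with h | h <;> rw [h] <;> decide
  constructor
  · rintro ⟨i, j, h⟩
    rcases h1 j with h2 | h2
    · exact ⟨i, by rw [h, h2]⟩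
    · exact ⟨1 + i, by rw [Function.iterate_add_apply, h, h2]; decide⟩
  · rintro ⟨k, hk⟩
    exact ⟨k, 0, hk⟩

theorem BasC (n : ℕ) : Bas n ↔ ∃ k : ℕ, CC^[k] n = 1 := by
  constructor
  · rintro ⟨k, hk⟩
    exact ⟨k + on k n, by rw [← accelN, hk]⟩
  · rintro ⟨k, hk⟩
    rw [← Cn_one_bas]
    exact (classC 1 n).1 ⟨k, 0, hk⟩

theorem sgk_eq (L : ℝ) (hL : 0 ≤ L) :
    Real.log 6 * Real.sqrt (2 * L / Real.log (4 / 3) ^ 3) = sg * kpp * Real.sqrt L := by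
  have hmu := mu_pos'
  have h3 := Real.log_pos (by norm_num : (1 : ℝ) < 3)
  have e6 : Real.log 6 = Real.log 2 + Real.log 3 := by
    rw [← Real.log_mul (by norm_num) (by norm_num)]; norm_num
  have e1 : 2 * L / Real.log (4 / 3) ^ 3 = L / (2 * mu * Real.sqrt mu) ^ 2 := by
    have e2 : (2 * mu * Real.sqrt mu) ^ 2 = 4 * mu ^ 3 := by
      have := Real.sq_sqrt hmu.le
      calc (2 * mu * Real.sqrt mu) ^ 2 = 4 * mu ^ 2 * (Real.sqrt mu) ^ 2 := by ring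
        _ = 4 * mu ^ 3 := by rw [this]; ring
    rw [log43, e2]
    field_simp
    norm_num
    ring
  rw [e1, Real.sqrt_div hL, Real.sqrt_sq (by positivity), e6]
  unfold sg c0 kpp
  have := Real.sqrt_pos.2 hmu
  field_simp
  ring

theorem phi_cdf (x : ℝ) : Phi x = ProbabilityTheory.cdf (ProbabilityTheory.gaussianReal 0 1) x := by
  unfold Phi
  rw [ProbabilityTheory.cdf_eq_real]

theorem dn_iff {P Q : ℕ → Prop} {l : ℝ} (h : ∀ n, 1 ≤ n → (P n ↔ Q n)) (hP : Dn P l) : Dn Q l := by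
  unfold Dn cnt at *
  refine hP.congr fun N => ?_
  have : {n : ℕ | 1 ≤ n ∧ n ≤ N ∧ P n} = {n : ℕ | 1 ≤ n ∧ n ≤ N ∧ Q n} := by
    ext n
    constructor
    · rintro ⟨h1, h2, h3⟩; exact ⟨h1, h2, (h n h1).1 h3⟩
    · rintro ⟨h1, h2, h3⟩; exact ⟨h1, h2, (h n h1).2 h3⟩
  rw [this]

theorem tb_eq (x : ℝ) (n : ℕ) (hn : 1 ≤ n) : tbC x n = 3 / Real.log (4 / 3) * Real.log n
    + x * (Real.log 6 * Real.sqrt (2 * Real.log n / Real.log (4 / 3) ^ 3)) := by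
  rw [sgk_eq _ (Real.log_nonneg (by exact_mod_cast hn))]
  unfold tbC
  ring

theorem clt_final (H : ∀ (a : ℕ) (δ : ℝ), Dn (Cn a) δ → ∀ x : ℝ, Dn (evT a x) (δ * Phi x)) :
    ∃ δ : ℕ → ℝ,
      (∀ a : ℕ, 1 ≤ a → 0 < δ a ∧ Dn (fun n => ∃ i j : ℕ, CC^[i] n = CC^[j] a) (δ a) ∧
        ∀ x : ℝ, Dn (fun n => ∃ k : ℕ, (k : ℝ) ≤ 3 / Real.log (4 / 3) * Real.log n
          + x * (Real.log 6 * Real.sqrt (2 * Real.log n / Real.log (4 / 3) ^ 3)) ∧
            ∃ j : ℕ, CC^[k] n = CC^[j] a)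
          (δ a * ProbabilityTheory.cdf (ProbabilityTheory.gaussianReal 0 1) x)) ∧
      (δ 1 = 1 ↔ ∀ n : ℕ, 1 ≤ n → ∃ k : ℕ, CC^[k] n = 1) ∧
      ∀ x : ℝ, Dn (fun n => ∃ k : ℕ, (k : ℝ) ≤ 3 / Real.log (4 / 3) * Real.log n
          + x * (Real.log 6 * Real.sqrt (2 * Real.log n / Real.log (4 / 3) ^ 3)) ∧ CC^[k] n = 1)
          (δ 1 * ProbabilityTheory.cdf (ProbabilityTheory.gaussianReal 0 1) x) := by
  obtain ⟨δ, h1, h2, _⟩ := weights
  obtain ⟨δ1, _, _, h5, h6⟩ := Bas_density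
  have e1 : δ 1 = δ1 := by
    refine tendsto_nhds_unique (h2 1 le_rfl) ?_
    exact dn_iff (fun n _ => (Cn_one_bas n).symm) h6
  refine ⟨δ, fun a ha => ⟨h1 a ha, ?_, fun x => ?_⟩, ?_, fun x => ?_⟩
  · exact dn_iff (fun n _ => (classC a n).symm) (h2 a ha)
  · rw [← phi_cdf]
    refine dn_iff (fun n hn => ?_) (clt_C (H a (δ a) (h2 a ha)) x)
    unfold evC
    rw [tb_eq x n hn]
  · rw [e1, h5]
    exact forall₂_congr fun n _ => BasC n
  · rw [← phi_cdf]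
    refine dn_iff (fun n hn => ?_) (clt_one (H 1 (δ 1) (h2 1 le_rfl)) x)
    rw [tb_eq x n hn]

end Pool.Agent.H499R2.ND
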